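import Mathlib

/-!
# MP_e54d61_gt, Q2: a homeomorphism conjugate to its inverse has stable flow length zero

If `h * f * h⁻¹ = f⁻¹` then `f ^ (2 n) = (f ^ n * h * (f ^ n)⁻¹) * h⁻¹`, and the set of time-one maps
of flows is invariant under conjugation and inversion, so the flow length of `f ^ (2 n)` is at most
twice the flow length of `h`.
-/

set_option autoImplicit false

open Filter Topology

namespace Pool.Agent.Results.MP_e54d61_gt.ConjugateToInverse

/-- `f` is the time-one map `φ 1` of a flow: a continuous one-parameter group `(φ t)`, `t ∈ ℝ`, of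
homeomorphisms of `X`. -/
def IsFlowMap {X : Type*} [TopologicalSpace X] (f : X ≃ₜ X) : Prop :=
  ∃ φ : ℝ → (X ≃ₜ X), (∀ s t, φ (s + t) = φ s * φ t) ∧
    Continuous (fun p : ℝ × X => φ p.1 p.2) ∧ φ 1 = f

/-- The flow length `fl f ∈ {0, 1, 2, …, ∞}`: the least number of time-one maps of flows whose
product is `f` (and `∞` if `f` is not such a product). -/
noncomputable def flowLength {X : Type*} [TopologicalSpace X] (f : X ≃ₜ X) : ℕ∞ :=
  ⨅ l : {l : List (X ≃ₜ X) // (∀ g ∈ l, IsFlowMap g) ∧ l.prod = f}, (l.1.length : ℕ∞)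

/-- `Homeo₀(X)`: the homeomorphisms isotopic to the identity, by an isotopy which is jointly
continuous together with its inverse. -/
def IsotopicToId {X : Type*} [TopologicalSpace X] (f : X ≃ₜ X) : Prop :=
  ∃ H : unitInterval → (X ≃ₜ X), Continuous (fun p : unitInterval × X => H p.1 p.2) ∧
    Continuous (fun p : unitInterval × X => (H p.1)⁻¹ p.2) ∧ H 0 = 1 ∧ H 1 = f

section

variable {X : Type*} [TopologicalSpace X]

theorem isFlowMap_inv {f : X ≃ₜ X} (hf : IsFlowMap f) : IsFlowMap f⁻¹ := by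
  obtain ⟨φ, h1, h2, h3⟩ := hf
  refine ⟨fun t => φ (-t), fun s t => ?_, ?_, ?_⟩
  · show φ (-(s + t)) = φ (-s) * φ (-t)
    rw [← h1, neg_add]
  · exact h2.comp ((continuous_fst.neg).prodMk continuous_snd)
  · have h0 : φ 0 = 1 := by
      have := h1 0 0
      rw [add_zero] at this
      exact (mul_eq_left.1 this.symm)
    have : φ (-1) * φ 1 = 1 := by rw [← h1]; simpa using h0
    rw [← h3]
    exact eq_inv_of_mul_eq_one_left this

theorem isFlowMap_conj {f : X ≃ₜ X} (hf : IsFlowMap f) (g : X ≃ₜ X) :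
    IsFlowMap (g * f * g⁻¹) := by
  obtain ⟨φ, h1, h2, h3⟩ := hf
  refine ⟨fun t => g * φ t * g⁻¹, fun s t => ?_, ?_, ?_⟩
  · simp only [h1]; group
  · have : Continuous (fun p : ℝ × X => g (φ p.1 (g⁻¹ p.2))) :=
      g.continuous.comp (h2.comp (continuous_fst.prodMk ((g⁻¹).continuous.comp continuous_snd)))
    exact this
  · simp only [h3]

theorem flowLength_le {f : X ≃ₜ X} {l : List (X ≃ₜ X)} (h : ∀ g ∈ l, IsFlowMap g)
    (hp : l.prod = f) : flowLength f ≤ l.length :=
  iInf_le (fun l : {l : List (X ≃ₜ X) // (∀ g ∈ l, IsFlowMap g) ∧ l.prod = f} =>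
    (l.1.length : ℕ∞)) ⟨l, h, hp⟩

theorem exists_list {f : X ≃ₜ X} (hf : flowLength f ≠ ⊤) :
    ∃ l : List (X ≃ₜ X), (∀ g ∈ l, IsFlowMap g) ∧ l.prod = f ∧ (l.length : ℕ∞) = flowLength f := by
  have hne : Nonempty {l : List (X ≃ₜ X) // (∀ g ∈ l, IsFlowMap g) ∧ l.prod = f} := by
    by_contra hcon
    rw [not_nonempty_iff] at hcon
    exact hf (iInf_of_empty _)
  obtain ⟨l, hl⟩ := ENat.exists_eq_iInf
    (fun l : {l : List (X ≃ₜ X) // (∀ g ∈ l, IsFlowMap g) ∧ l.prod = f} => (l.1.length : ℕ∞))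
  exact ⟨l.1, l.2.1, l.2.2, hl⟩

theorem flowLength_mul (a b : X ≃ₜ X) : flowLength (a * b) ≤ flowLength a + flowLength b := by
  by_cases ha : flowLength a = ⊤
  · rw [ha, top_add]; exact le_top
  by_cases hb : flowLength b = ⊤
  · rw [hb, add_top]; exact le_top
  obtain ⟨l, h1, h2, h3⟩ := exists_list ha
  obtain ⟨m, k1, k2, k3⟩ := exists_list hb
  rw [← h3, ← k3]
  have := flowLength_le (f := a * b) (l := l ++ m) (by
    intro g hg
    rcases List.mem_append.1 hg with h | h
    · exact h1 g h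
    · exact k1 g h) (by rw [List.prod_append, h2, k2])
  rw [List.length_append] at this
  exact_mod_cast this

theorem flowLength_conj_le (a g : X ≃ₜ X) : flowLength (g * a * g⁻¹) ≤ flowLength a := by
  by_cases ha : flowLength a = ⊤
  · rw [ha]; exact le_top
  obtain ⟨l, h1, h2, h3⟩ := exists_list ha
  rw [← h3]
  have := flowLength_le (f := g * a * g⁻¹) (l := l.map (fun x => g * x * g⁻¹)) (by
    intro x hx
    obtain ⟨y, hy, rfl⟩ := List.mem_map.1 hx
    exact isFlowMap_conj (h1 y hy) g) (by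
      rw [← h2]
      have : (fun x => g * x * g⁻¹) = (MulAut.conj g).toMonoidHom := by
        funext x; simp [MulAut.conj_apply]
      rw [this, ← MonoidHom.map_list_prod]
      simp [MulAut.conj_apply])
  simpa using this

theorem flowLength_inv_le (a : X ≃ₜ X) : flowLength a⁻¹ ≤ flowLength a := by
  by_cases ha : flowLength a = ⊤
  · rw [ha]; exact le_top
  obtain ⟨l, h1, h2, h3⟩ := exists_list ha
  rw [← h3]
  have := flowLength_le (f := a⁻¹) (l := (l.map (fun x => x⁻¹)).reverse) (by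
    intro x hx
    rw [List.mem_reverse] at hx
    obtain ⟨y, hy, rfl⟩ := List.mem_map.1 hx
    exact isFlowMap_inv (h1 y hy)) (by
      rw [← h2, List.prod_inv_reverse])
  simpa using this

theorem pow_identity {G : Type*} [Group G] {f h : G} (hc : h * f * h⁻¹ = f⁻¹) (n : ℕ) :
    f ^ (2 * n) = (f ^ n * h * (f ^ n)⁻¹) * h⁻¹ := by
  have h1 : h * f ^ n * h⁻¹ = (f ^ n)⁻¹ := by
    rw [← inv_pow, ← hc]
    exact (conj_pow (i := n) (a := h) (b := f)).symm
  have h2 : h * (f ^ n)⁻¹ * h⁻¹ = f ^ n := by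
    have := congrArg (·⁻¹) h1
    simpa [mul_inv_rev, mul_assoc] using this
  calc f ^ (2 * n) = f ^ n * f ^ n := by rw [two_mul, pow_add]
    _ = f ^ n * (h * (f ^ n)⁻¹ * h⁻¹) := by rw [h2]
    _ = (f ^ n * h * (f ^ n)⁻¹) * h⁻¹ := by group

theorem even_bound {f h : X ≃ₜ X} (hc : h * f * h⁻¹ = f⁻¹) (n : ℕ) :
    flowLength (f ^ (2 * n)) ≤ 2 * flowLength h := by
  rw [pow_identity hc n, two_mul]
  exact (flowLength_mul _ _).trans (add_le_add (flowLength_conj_le _ _) (flowLength_inv_le _))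

theorem all_bound {f h : X ≃ₜ X} (hc : h * f * h⁻¹ = f⁻¹) (n : ℕ) :
    flowLength (f ^ n) ≤ flowLength f + 2 * flowLength h := by
  obtain ⟨k, rfl | rfl⟩ := Nat.even_or_odd' n
  · exact (even_bound hc k).trans le_add_self
  · rw [pow_succ']
    exact (flowLength_mul _ _).trans (by gcongr; exact even_bound hc k)

end

/-- **Negative answer to Q2 (the negated form of Q2 holds).** Let `X` be a topological space (in Q2,
`X` is the closed orientable surface of genus `g ≥ 1`).

1. If `f, h` are homeomorphisms of `X` with `h f h⁻¹ = f⁻¹`, then the flow lengths of all powers of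
   `f` are bounded: `fl (f ^ n) ≤ fl f + 2 fl h` for all `n`.
2. Let the time-one maps of flows generate `Homeo₀(X)`, so that the flow length of every element of
   `Homeo₀(X)` is finite (this is recorded in the setting of the problem for surfaces, and the flow
   length is defined on that basis). Then every `f ∈ Homeo₀(X)` which is conjugate in `Homeo₀(X)` to
   its inverse has stable flow length `lim fl (f ^ n) / n = 0`. -/
theorem result (X : Type*) [TopologicalSpace X] :
    (∀ f h : X ≃ₜ X, h * f * h⁻¹ = f⁻¹ →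
      ∀ n : ℕ, flowLength (f ^ n) ≤ flowLength f + 2 * flowLength h) ∧
    ((∀ k : X ≃ₜ X, IsotopicToId k → flowLength k ≠ ⊤) →
      ∀ f : X ≃ₜ X, IsotopicToId f →
        (∃ h : X ≃ₜ X, IsotopicToId h ∧ h * f * h⁻¹ = f⁻¹) →
        (∀ n : ℕ, flowLength (f ^ n) ≠ ⊤) ∧
        Tendsto (fun n : ℕ => ((flowLength (f ^ n)).toNat : ℝ) / n) atTop (𝓝 0)) := by
  refine ⟨fun f h hc n => all_bound hc n, fun hgen f hf ⟨h, hh, hc⟩ => ?_⟩
  have hF := hgen f hf
  have hH := hgen h hh
  obtain ⟨a, ha⟩ := ENat.ne_top_iff_exists.1 hF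
  obtain ⟨b, hb⟩ := ENat.ne_top_iff_exists.1 hH
  have hbd : ∀ n : ℕ, flowLength (f ^ n) ≤ ((a + 2 * b : ℕ) : ℕ∞) := by
    intro n
    have := all_bound hc n
    rw [← ha, ← hb] at this
    exact_mod_cast this
  have hfin : ∀ n : ℕ, flowLength (f ^ n) ≠ ⊤ := fun n =>
    ne_top_of_le_ne_top (ENat.natCast_ne_top _) (hbd n)
  refine ⟨hfin, ?_⟩
  have hreal : ∀ n : ℕ, ((flowLength (f ^ n)).toNat : ℝ) ≤ ((a + 2 * b : ℕ) : ℝ) := by
    intro n
    have := hbd n
    rw [← ENat.natCast_toNat (hfin n)] at this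
    exact_mod_cast this
  refine squeeze_zero (g := fun n : ℕ => ((a + 2 * b : ℕ) : ℝ) / n) (fun n => by positivity)
    (fun n => div_le_div_of_nonneg_right (hreal n) (Nat.cast_nonneg n)) ?_
  exact tendsto_const_div_atTop_nhds_zero_nat _

end Pool.Agent.Results.MP_e54d61_gt.ConjugateToInverse
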